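import Mathlib

set_option autoImplicit false

namespace Pool.Agent.Results.MP_1ece31_lc.Yes

open scoped Manifold ContDiff
open Module VectorField

/-- The triple product property. -/
def TPP {G : Type} [Group G] (S T U : Set G) : Prop :=
  ∀ s ∈ S, ∀ s' ∈ S, ∀ t ∈ T, ∀ t' ∈ T, ∀ u ∈ U, ∀ u' ∈ U,
    (s * s'⁻¹) * (t * t'⁻¹) * (u * u'⁻¹) = 1 → s * s'⁻¹ = 1 ∧ t * t'⁻¹ = 1 ∧ u * u'⁻¹ = 1

/-- `L` has a Cartan subalgebra, and all of them have dimension `r`. -/
def IsRank (L : Type) [LieRing L] [LieAlgebra ℝ L] (r : ℕ) : Prop :=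
  (∃ H : LieSubalgebra ℝ L, H.IsCartanSubalgebra) ∧
    ∀ H : LieSubalgebra ℝ L, H.IsCartanSubalgebra → finrank ℝ H = r

/-- The Lie algebra of the Lie group `G` (which is its own global chart) has rank `r`. -/
def HasRank (G : Type) [NormedAddCommGroup G] [NormedSpace ℝ G] [CompleteSpace G] [Group G]
    [LieGroup 𝓘(ℝ, G) ω G] (r : ℕ) : Prop := IsRank (GroupLieAlgebra 𝓘(ℝ, G) G) r

/-- The mean dimension of three subspaces. -/
noncomputable def meanDim {G : Type} [AddCommGroup G] [Module ℝ G] (M₁ M₂ M₃ : Submodule ℝ G) :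
    ℝ := ((finrank ℝ M₁ : ℝ) + finrank ℝ M₂ + finrank ℝ M₃) / 3

section
variable {E : Type} [NormedAddCommGroup E] [NormedSpace ℝ E] (B : E →L[ℝ] E →L[ℝ] E)

theorem grp (h1 : ∀ a b c, B (B a b) c = 0) (h2 : ∀ a b c, B c (B a b) = 0)
    (h3 : ∀ a, B a a = 0) : ∃ _ : Group E, (∀ a b : E, a * b = a + b + B a b) ∧
      (∀ a : E, a⁻¹ = -a) ∧ (1 : E) = 0 := by
  letI : Mul E := ⟨fun a b => a + b + B a b⟩
  letI : One E := ⟨0⟩
  letI : Inv E := ⟨fun a => -a⟩
  refine ⟨Group.ofLeftAxioms (fun a b c => ?_) (fun a => ?_) (fun a => ?_), fun _ _ => rfl,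
    fun _ => rfl, rfl⟩
  · change a + b + B a b + c + B (a + b + B a b) c = a + (b + c + B b c) + B a (b + c + B b c)
    simp only [map_add, ContinuousLinearMap.add_apply, h1, h2]
    abel
  · change 0 + a + B 0 a = a
    simp
  · change -a + a + B (-a) a = 0
    simp [h3]

variable [Group E]

theorem lie (hm : ∀ a b : E, a * b = a + b + B a b) (hi : ∀ a : E, a⁻¹ = -a) :
    LieGroup 𝓘(ℝ, E) ω E where
  contMDiff_mul := by
    rw [← modelWithCornersSelf_prod, chartedSpaceSelf_prod]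
    simp only [hm]
    exact (contDiff_add.add (B.isBoundedBilinearMap.contDiff)).contMDiff
  contMDiff_inv := by
    simp only [hi]
    exact contDiff_neg.contMDiff

theorem field (hm : ∀ a b : E, a * b = a + b + B a b) (v : E) :
    mulInvariantVectorField (I := 𝓘(ℝ, E)) (G := E) v = fun g => (v + B g v : E) := by
  funext g
  have h : HasFDerivAt (fun h => g * h) (ContinuousLinearMap.id ℝ E + B g) (1 : E) := by
    simp only [hm]
    exact ((hasFDerivAt_id _).const_add g).add (B g).hasFDerivAt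
  exact congrArg (fun L : E →L[ℝ] E => L v) (mfderiv_eq_fderiv.trans h.fderiv)

theorem br (hm : ∀ a b : E, a * b = a + b + B a b) (h1 : ∀ a b c, B (B a b) c = 0) (v w : E) :
    mlieBracket 𝓘(ℝ, E) (mulInvariantVectorField (I := 𝓘(ℝ, E)) (G := E) v)
      (mulInvariantVectorField (I := 𝓘(ℝ, E)) (G := E) w) (1 : E) = (B v w - B w v : E) := by
  rw [field B hm, field B hm, ← mlieBracketWithin_univ]
  refine (congrFun mlieBracketWithin_eq_lieBracketWithin 1).trans ?_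
  have h : ∀ u : E, fderiv ℝ (fun g => u + B g u) (1 : E) = B.flip u := fun u =>
    ((B.flip u).hasFDerivAt.const_add u).fderiv
  have : lieBracketWithin ℝ (fun g => v + B g v) (fun g => w + B g w) Set.univ (1 : E) =
      B v w - B w v := by
    rw [lieBracketWithin_univ, lieBracket, h, h]
    simp [h1]
  exact this

theorem cartan [FiniteDimensional ℝ E] [CompleteSpace E] [LieGroup 𝓘(ℝ, E) ω E]
    (hm : ∀ a b : E, a * b = a + b + B a b) (h1 : ∀ a b c, B (B a b) c = 0)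
    (h2 : ∀ a b c, B c (B a b) = 0) :
    (∃ H : LieSubalgebra ℝ (GroupLieAlgebra 𝓘(ℝ, E) E), H.IsCartanSubalgebra) ∧
      ∀ H : LieSubalgebra ℝ (GroupLieAlgebra 𝓘(ℝ, E) E), H.IsCartanSubalgebra →
        finrank ℝ H = finrank ℝ E := by
  have h3 : ∀ u v w : GroupLieAlgebra 𝓘(ℝ, E) E, ⁅⁅u, v⁆, w⁆ = 0 := fun u v w => by
    have e1 : ⁅u, v⁆ = _ := br B hm h1 u v
    rw [e1]
    refine (br B hm h1 _ w).trans ?_
    have : ∀ u v w : E, B (B u v - B v u) w - B w (B u v - B v u) = 0 := by simp [h1, h2]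
    exact this u v w
  haveI : IsNoetherian ℝ (GroupLieAlgebra 𝓘(ℝ, E) E) := inferInstanceAs (IsNoetherian ℝ E)
  haveI : LieRing.IsNilpotent (GroupLieAlgebra 𝓘(ℝ, E) E) :=
    (LieAlgebra.isNilpotent_iff_forall (R := ℝ)).2 fun x => ⟨2, by
      ext y
      simp only [pow_two, End.mul_apply, LieAlgebra.ad_apply, LinearMap.zero_apply]
      rw [← lie_skew, h3, neg_zero]⟩
  refine ⟨⟨⊤, inferInstance⟩, fun H hH => ?_⟩
  have h4 : ∀ u v, ⁅u, v⁆ ∈ H := fun u v => by
    rw [← hH.self_normalizing, LieSubalgebra.mem_normalizer_iff]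
    intro y _
    rw [h3]
    exact H.zero_mem
  obtain rfl : H = ⊤ := eq_top_iff.2 fun x _ => by
    rw [← hH.self_normalizing, LieSubalgebra.mem_normalizer_iff]
    exact fun y _ => h4 x y
  exact LieSubalgebra.topEquiv.toLinearEquiv.finrank_eq
end

theorem result (n : ℕ) (hn : 0 < n) : ∃ (G : Type) (_ : NormedAddCommGroup G) (_ : NormedSpace ℝ G)
    (_ : FiniteDimensional ℝ G) (_ : CompleteSpace G) (_ : Group G) (_ : LieGroup 𝓘(ℝ, G) ω G)
    (d r : ℕ) (m : ℝ) (M₁ M₂ M₃ : Submodule ℝ G), 0 < d ∧ finrank ℝ G = d ∧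
      HasRank G r ∧ TPP (M₁ : Set G) M₂ M₃ ∧ m = meanDim M₁ M₂ M₃ ∧
      ((d : ℝ) - r) / 2 < m ∧ r / (m - ((d : ℝ) - r) / 2) = 2 + 1 / n := by
  let E := (Fin n → ℝ) × (Fin n → ℝ) × ℝ
  let B₀ : E →ₗ[ℝ] E →ₗ[ℝ] E := LinearMap.mk₂ ℝ
    (fun a b => (0, 0, a.1 ⬝ᵥ b.2.1 - a.2.1 ⬝ᵥ b.1))
    (fun a b c => by simp [E]; ring) (fun a b c => by simp [E]; ring)
    (fun a b c => by simp [E]; ring) (fun a b c => by simp [E]; ring)
  obtain ⟨B, hB⟩ : ∃ B : E →L[ℝ] E →L[ℝ] E, ∀ a b : E,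
      B a b = (0, 0, a.1 ⬝ᵥ b.2.1 - a.2.1 ⬝ᵥ b.1) := ⟨B₀.toContinuousBilinearMap, fun _ _ => rfl⟩
  have h1 : ∀ a b c, B (B a b) c = 0 := fun a b c => by simp [hB, E]
  have h2 : ∀ a b c, B c (B a b) = 0 := fun a b c => by simp [hB, E]
  obtain ⟨G, hm, hi, ho⟩ := grp B h1 h2 fun a => by simp [hB, E, dotProduct_comm]
  have L := @lie E _ _ B G hm hi
  have C := @cartan E _ _ B G _ _ L hm h1 h2
  let f : ℝ → ℝ → (Fin n → ℝ) →ₗ[ℝ] E := fun p q =>
    (p • LinearMap.id).prod ((q • LinearMap.id).prod 0)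
  have hf : ∀ p q x, f p q x = (p • x, q • x, 0) := fun _ _ _ => rfl
  have hr : ∀ p q : ℝ, p = 1 ∨ q = 1 → finrank ℝ (LinearMap.range (f p q)) = n := fun p q h => by
    rw [LinearMap.finrank_range_of_inj fun x y e => ?_]
    · simp
    · rw [hf, hf] at e
      rcases h with rfl | rfl
      · simpa using congrArg (·.1) e
      · simpa using congrArg (·.2.1) e
  have hn' : (n : ℝ) ≠ 0 := by positivity
  have hd : finrank ℝ E = 2 * n + 1 := by simp [E]; ring
  refine ⟨E, inferInstance, inferInstance, inferInstance, inferInstance, G, L, 2 * n + 1, 2 * n + 1,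
    n, LinearMap.range (f 1 0), LinearMap.range (f 0 1), LinearMap.range (f 1 1), by omega, hd,
    ⟨C.1, fun H h => (C.2 H h).trans hd⟩, ?_, ?_, by simpa using hn, by push_cast; field_simp; ring⟩
  · rintro _ ⟨a, rfl⟩ _ ⟨a', rfl⟩ _ ⟨b, rfl⟩ _ ⟨b', rfl⟩ _ ⟨c, rfl⟩ _ ⟨c', rfl⟩
    have hq : ∀ p q x y, f p q x + -f p q y + B (f p q x) (-f p q y) = f p q (x - y) :=
      fun p q x y => by
        rw [map_sub, hB, hf, hf]
        simp [E, sub_eq_add_neg, mul_left_comm]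
    simp only [hm, hi, ho, hq]
    generalize a - a' = x
    generalize b - b' = y
    generalize c - c' = z
    intro h
    simp only [hB, hf, E, one_smul, zero_smul, Prod.mk_add_mk, Prod.mk_eq_zero, add_zero, zero_add,
      dotProduct_zero, sub_zero] at h ⊢
    obtain ⟨e1, e2, e3⟩ := h
    obtain rfl : x = -z := eq_neg_of_add_eq_zero_left e1
    obtain rfl : y = -z := eq_neg_of_add_eq_zero_left e2
    obtain rfl : z = 0 := by simpa using e3
    simp
  · rw [meanDim, hr 1 0 (Or.inl rfl), hr 0 1 (Or.inr rfl), hr 1 1 (Or.inl rfl)]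
    ring

end Pool.Agent.Results.MP_1ece31_lc.Yes
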